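import Mathlib

set_option autoImplicit false

/-! MP_600e55_nt, free products for `p = 2`: valuations and finite orbits (lemmas for `C3`). -/

namespace Pool.Agent.V7H72.FP

section

variable {F K : Type} [Field F] [Field K] [Algebra F K]
  {Γ : Type} [LinearOrderedCommGroupWithZero Γ] {w : Valuation K Γ}

lemma lt_one_of {σ : K ≃ₐ[F] K} (h : ∀ x : K, (w (σ x) ≤ 1 ↔ w x ≤ 1)) (x : K) :
    w (σ x) < 1 ↔ w x < 1 := by
  by_cases hx : x = 0
  · rw [hx, map_zero]
  · have hσx : σ x ≠ 0 := (map_ne_zero_iff _ σ.injective).mpr hx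
    have h1 : ∀ y : K, y ≠ 0 → (w y < 1 ↔ ¬ w y⁻¹ ≤ 1) := by
      intro y hy
      have hwy : 0 < w y := zero_lt_iff.mpr ((w.ne_zero_iff).mpr hy)
      rw [map_inv₀, inv_le_one₀ hwy, not_le]
    rw [h1 _ hσx, h1 _ hx, ← map_inv₀, h]

/-- a valuation equivalent to its conjugate is invariant on elements of finite orbit -/
lemma w_eq {σ : K ≃ₐ[F] K} (h : ∀ x : K, (w (σ x) ≤ 1 ↔ w x ≤ 1)) {n : ℕ} (hn : 0 < n) {x : K}
    (hx : (σ ^ n) x = x) : w (σ x) = w x := by
  by_cases hx0 : x = 0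
  · rw [hx0, map_zero]
  have hi0 : ∀ i : ℕ, (σ ^ i) x ≠ 0 := fun i => (map_ne_zero_iff _ (σ ^ i).injective).mpr hx0
  have hw0 : ∀ i : ℕ, 0 < w ((σ ^ i) x) := fun i => zero_lt_iff.mpr ((w.ne_zero_iff).mpr (hi0 i))
  set y : K := σ x / x with hy
  have hstep : ∀ i : ℕ, w ((σ ^ (i + 1)) x) = w ((σ ^ i) y) * w ((σ ^ i) x) := by
    intro i
    rw [← map_mul, ← map_mul, hy, div_mul_cancel₀ _ hx0, pow_succ, AlgEquiv.mul_apply]
  have hyne : y ≠ 0 := div_ne_zero ((map_ne_zero_iff _ σ.injective).mpr hx0) hx0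
  rcases lt_trichotomy (w y) 1 with hlt | heq | hgt
  · exfalso
    have h1 : ∀ i : ℕ, w ((σ ^ i) y) < 1 := by
      intro i
      induction i with
      | zero => simpa using hlt
      | succ i ih =>
        rw [pow_succ', AlgEquiv.mul_apply]
        exact (lt_one_of h _).mpr ih
    have h2 : StrictAnti (fun i : ℕ => w ((σ ^ i) x)) := strictAnti_nat_of_succ_lt fun i => by
      rw [hstep]
      exact mul_lt_of_lt_one_left (hw0 i) (h1 i)
    have h3 := h2 hn
    simp only [pow_zero, AlgEquiv.one_apply] at h3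
    rw [hx] at h3
    exact lt_irrefl _ h3
  · have := hstep 0
    simp only [zero_add, pow_one, pow_zero, AlgEquiv.one_apply] at this
    rw [this, heq, one_mul]
  · exfalso
    have h1 : ∀ i : ℕ, 1 < w ((σ ^ i) y) := by
      intro i
      induction i with
      | zero => simpa using hgt
      | succ i ih =>
        rw [pow_succ', AlgEquiv.mul_apply]
        have := (h ((σ ^ i) y)).not
        rw [not_le, not_le] at this
        exact this.mpr ih
    have h2 : StrictMono (fun i : ℕ => w ((σ ^ i) x)) := strictMono_nat_of_lt_succ fun i => by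
      rw [hstep]
      exact lt_mul_of_one_lt_left (hw0 i) (h1 i)
    have h3 := h2 hn
    simp only [pow_zero, AlgEquiv.one_apply] at h3
    rw [hx] at h3
    exact lt_irrefl _ h3

/-- powers of inertia elements -/
lemma inertia_pow {σ : K ≃ₐ[F] K} (h : ∀ x : K, (w (σ x) ≤ 1 ↔ w x ≤ 1))
    (hi : ∀ x : K, w x ≤ 1 → w (σ x - x) < 1) (m : ℕ) (x : K) (hx : w x ≤ 1) :
    w ((σ ^ m) x - x) < 1 := by
  induction m with
  | zero => simp
  | succ m ih =>
    have h1 : (σ ^ (m + 1)) x - x = σ ((σ ^ m) x - x) + (σ x - x) := by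
      rw [pow_succ', AlgEquiv.mul_apply, map_sub]
      ring
    rw [h1]
    exact lt_of_le_of_lt (w.map_add _ _) (max_lt ((lt_one_of h _).mpr ih) (hi x hx))

end

section

variable {F K : Type} [Field F] [Field K] [Algebra F K] [IsGalois F K]

open Polynomial in
/-- every element is fixed by an open normal subgroup -/
lemma exists_open_normal (x : K) : ∃ V : Subgroup (K ≃ₐ[F] K), V.Normal ∧
    IsOpen (V : Set (K ≃ₐ[F] K)) ∧ ∀ g ∈ V, g x = x := by
  have hint : ∀ y : K, IsIntegral F y := fun y => Algebra.IsIntegral.isIntegral y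
  have hfin : Finite ((minpoly F x).rootSet K) := (Polynomial.rootSet_finite _ K).to_subtype
  set L : IntermediateField F K := IntermediateField.adjoin F ((minpoly F x).rootSet K) with hL
  have hLfin : FiniteDimensional F L := IntermediateField.finiteDimensional_adjoin fun y _ => hint y
  let V : Subgroup (K ≃ₐ[F] K) :=
    { carrier := {g | ∀ y ∈ (minpoly F x).rootSet K, g y = y}
      mul_mem' := fun {a b} ha hb y hy => by
        rw [AlgEquiv.mul_apply, hb y hy, ha y hy]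
      one_mem' := fun y _ => rfl
      inv_mem' := fun {a} ha y hy => by
        have h1 := ha y hy
        have h2 : a⁻¹ (a y) = y := by
          rw [← AlgEquiv.mul_apply, inv_mul_cancel]; rfl
        rw [h1] at h2
        exact h2 }
  refine ⟨V, ⟨fun n hn g y hy => ?_⟩, ?_, fun g hg => hg x ?_⟩
  · rw [AlgEquiv.mul_apply, AlgEquiv.mul_apply]
    have h1 : g⁻¹ y ∈ (minpoly F x).rootSet K := by
      rw [Polynomial.mem_rootSet] at hy ⊢
      refine ⟨hy.1, ?_⟩
      have h2 := Polynomial.aeval_algHom_apply ((g⁻¹ : K ≃ₐ[F] K) : K →ₐ[F] K) y (minpoly F x)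
      rw [hy.2, map_zero] at h2
      exact h2
    rw [hn _ h1, ← AlgEquiv.mul_apply, mul_inv_cancel]
    rfl
  · refine Subgroup.isOpen_mono (H₁ := L.fixingSubgroup) ?_ (IntermediateField.fixingSubgroup_isOpen L)
    intro g hg y hy
    exact (IntermediateField.mem_fixingSubgroup_iff L g).mp hg y
      (IntermediateField.subset_adjoin F _ hy)
  · rw [Polynomial.mem_rootSet]
    exact ⟨minpoly.ne_zero (hint x), minpoly.aeval F x⟩

/-- all finite continuous quotients are 2-groups: elements have 2-power periods -/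
lemma pow_fix (hP : ∀ V : Subgroup (K ≃ₐ[F] K), V.Normal → IsOpen (V : Set (K ≃ₐ[F] K)) →
      ∃ k : ℕ, V.index = 2 ^ k) (x : K) : ∃ m : ℕ, ∀ σ : K ≃ₐ[F] K, (σ ^ (2 ^ m)) x = x := by
  obtain ⟨V, hVn, hVo, hV⟩ := exists_open_normal (F := F) x
  obtain ⟨m, hm⟩ := hP V hVn hVo
  refine ⟨m, fun σ => hV _ ?_⟩
  rw [← hm]
  exact Subgroup.pow_index_mem V σ

/-- an element `τ` of the group generated by `σ` and `y` with `τ y = -y` -/
lemma exists_neg (hP : ∀ V : Subgroup (K ≃ₐ[F] K), V.Normal → IsOpen (V : Set (K ≃ₐ[F] K)) →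
      ∃ k : ℕ, V.index = 2 ^ k) {σ : K ≃ₐ[F] K} (hσ : σ ≠ 1) :
    ∃ (m : ℕ) (y : K), y ≠ 0 ∧ (σ ^ m) y = -y := by
  classical
  obtain ⟨x, hx⟩ : ∃ x, σ x ≠ x := by
    by_contra h
    push Not at h
    exact hσ (AlgEquiv.ext h)
  obtain ⟨m, hm⟩ := pow_fix hP x
  have hex : ∃ k : ℕ, (σ ^ (2 ^ k)) x = x := ⟨m, hm σ⟩
  set k := Nat.find hex with hk
  have hk1 : (σ ^ (2 ^ k)) x = x := Nat.find_spec hex
  have hk0 : k ≠ 0 := by
    intro h0
    rw [h0, pow_zero, pow_one] at hk1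
    exact hx hk1
  obtain ⟨j, hj⟩ := Nat.exists_eq_succ_of_ne_zero hk0
  have hj1 : (σ ^ (2 ^ j)) x ≠ x := Nat.find_min hex (by omega)
  refine ⟨2 ^ j, x - (σ ^ (2 ^ j)) x, sub_ne_zero.mpr hj1.symm, ?_⟩
  have h2 : (σ ^ (2 ^ j)) ((σ ^ (2 ^ j)) x) = x := by
    rw [← AlgEquiv.mul_apply, ← pow_add, ← two_mul, ← pow_succ']
    rw [hj] at hk1
    exact hk1
  rw [map_sub, h2]
  ring

/-- a norm to the fixed field of `H` -/
lemma exists_norm (hP : ∀ V : Subgroup (K ≃ₐ[F] K), V.Normal → IsOpen (V : Set (K ≃ₐ[F] K)) →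
      ∃ k : ℕ, V.index = 2 ^ k) (H : Subgroup (K ≃ₐ[F] K))
    {Γ : Type} [LinearOrderedCommGroupWithZero Γ] {w : Valuation K Γ}
    (hH : ∀ σ ∈ H, ∀ x : K, w (σ x) = w x) (x : K) (hx : x ≠ 0) :
    ∃ (k : ℕ) (N : K), (∀ σ ∈ H, σ N = N) ∧ N ≠ 0 ∧ w N = w x ^ (2 ^ k) := by
  classical
  obtain ⟨V, hVn, hVo, hV⟩ := exists_open_normal (F := F) x
  obtain ⟨m, hm⟩ := hP V hVn hVo
  have hfi : V.FiniteIndex := ⟨by rw [hm]; positivity⟩
  have hfin : Finite ((K ≃ₐ[F] K) ⧸ V) := inferInstance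
  set Hb : Subgroup ((K ≃ₐ[F] K) ⧸ V) := H.map (QuotientGroup.mk' V) with hHb
  have hcard : ∃ k : ℕ, Nat.card Hb = 2 ^ k := by
    have h1 : Nat.card Hb ∣ 2 ^ m := by
      have h2 : Nat.card Hb ∣ Nat.card ((K ≃ₐ[F] K) ⧸ V) := Subgroup.card_subgroup_dvd_card Hb
      have h3 : Nat.card ((K ≃ₐ[F] K) ⧸ V) = 2 ^ m := hm
      rwa [h3] at h2
    obtain ⟨k, -, hk⟩ := (Nat.dvd_prime_pow Nat.prime_two).mp h1
    exact ⟨k, hk⟩
  obtain ⟨k, hk⟩ := hcard
  have _ : Fintype Hb := Fintype.ofFinite _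
  let act : ((K ≃ₐ[F] K) ⧸ V) → K := fun q => (Quotient.out q) x
  have hact : ∀ g : K ≃ₐ[F] K, act (g : (K ≃ₐ[F] K) ⧸ V) = g x := by
    intro g
    have h1 : g⁻¹ * Quotient.out (g : (K ≃ₐ[F] K) ⧸ V) ∈ V := by
      apply QuotientGroup.eq.mp
      exact (QuotientGroup.out_eq' _).symm
    have h2 := hV _ h1
    have h3 : g ((g⁻¹ * Quotient.out (g : (K ≃ₐ[F] K) ⧸ V)) x) = g x := by rw [h2]
    rw [← AlgEquiv.mul_apply, ← mul_assoc, mul_inv_cancel, one_mul] at h3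
    exact h3
  refine ⟨k, ∏ q : Hb, act q, ?_, ?_, ?_⟩
  · intro σ hσ
    have hmem : ((QuotientGroup.mk' V) σ) ∈ Hb := Subgroup.mem_map_of_mem _ hσ
    rw [map_prod]
    refine Fintype.prod_equiv (Equiv.mulLeft (⟨_, hmem⟩ : Hb)) _ _ ?_
    rintro ⟨q, hq⟩
    obtain ⟨g, rfl⟩ := QuotientGroup.mk_surjective q
    have h1 : act ((g : (K ≃ₐ[F] K) ⧸ V)) = g x := hact g
    have h2 : act (((QuotientGroup.mk' V) σ) * (g : (K ≃ₐ[F] K) ⧸ V)) = (σ * g) x := hact (σ * g)
    change σ (act _) = act (((QuotientGroup.mk' V) σ) * (g : (K ≃ₐ[F] K) ⧸ V))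
    rw [h1, h2, AlgEquiv.mul_apply]
  · rw [Finset.prod_ne_zero_iff]
    intro q _
    exact (map_ne_zero_iff _ (Quotient.out (q : (K ≃ₐ[F] K) ⧸ V)).injective).mpr hx
  · rw [map_prod]
    have h1 : ∀ q : Hb, w (act q) = w x := by
      rintro ⟨q, hq⟩
      obtain ⟨g, hg, rfl⟩ := Subgroup.mem_map.mp hq
      have h2 : act ((QuotientGroup.mk' V) g) = g x := hact g
      change w (act ((QuotientGroup.mk' V) g)) = w x
      rw [h2, hH g hg]
    rw [Finset.prod_congr rfl fun q _ => h1 q, Finset.prod_const, Finset.card_univ,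
      ← Nat.card_eq_fintype_card, hk]

end

end Pool.Agent.V7H72.FP
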