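import Mathlib
import Pool.Agent.V7H55.FP.Defs4
import Pool.Agent.V7H72.FP.C3L

set_option autoImplicit false

/-! MP_600e55_nt, free products for `p = 2`: decomposition groups. -/

namespace Pool.Agent.V7H72.FP

open Pool.Agent.V7H55.FP
open Pool.Agent.V7H55.ET (Adm near)
open Pool.Agent.Y920.EP (pwG)

theorem t_C3 : S_C3 := by
  classical
  intro F K _ _ _ _ h2 hsq hP H _ hT hE
  obtain ⟨Γ, _, w, hdec, hw2, σ, hσH, hσ1, hin⟩ := hT
  have hle : ∀ g ∈ H, ∀ x : K, (w (g x) ≤ 1 ↔ w x ≤ 1) := fun g hg => (hdec g).mp hg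
  have hlt : ∀ g ∈ H, ∀ x : K, (w (g x) < 1 ↔ w x < 1) := fun g hg => lt_one_of (hle g hg)
  have hinv : ∀ g ∈ H, ∀ x : K, w (g x) = w x := by
    intro g hg x
    obtain ⟨m, hm⟩ := pow_fix hP x
    exact w_eq (hle g hg) (by positivity) (hm g)
  set v : Valuation F Γ := w.comap (algebraMap F K) with hv
  set O : ValuationSubring F := v.valuationSubring with hO
  have hequiv : v.IsEquiv O.valuation := v.isEquiv_valuation_valuationSubring
  have hpw : ∀ t ∈ pwG F 2, ∃ s : Fˣ, t = s ^ 2 := by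
    rintro t ⟨s, rfl⟩
    exact ⟨s, rfl⟩
  refine ⟨O, ⟨?_, ?_⟩, ?_⟩
  · -- `2` is a unit
    rw [hO, Valuation.mem_valuationSubring_iff]
    have h3 : v (2 : F) = 1 := by
      rw [hv, Valuation.comap_apply, map_ofNat, hw2]
    have h4 : v ((2 : ℕ) : F)⁻¹ = 1 := by
      rw [map_inv₀]
      have : ((2 : ℕ) : F) = 2 := by norm_num
      rw [this, h3, inv_one]
    exact h4.le
  · -- `O* F*² ≠ F*`
    intro htop
    -- divisibility
    have hdiv : ∀ a : K, (∀ g ∈ H, g a = a) → a ≠ 0 →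
        ∃ b : K, (∀ g ∈ H, g b = b) ∧ b ≠ 0 ∧ w a = w b ^ 2 := by
      intro a ha ha0
      obtain ⟨f, e, he, he0, hae⟩ := hE a ha ha0
      have hf : f ∈ O.unitGroup ⊔ pwG F 2 := by rw [htop]; exact Subgroup.mem_top f
      obtain ⟨u, hu, t, ht, hut⟩ := Subgroup.mem_sup.mp hf
      obtain ⟨s, rfl⟩ := hpw t ht
      have hu1 : w (algebraMap F K (u : F)) = 1 := by
        have h3 : O.valuation (u : F) = 1 := (O.mem_unitGroup_iff u).mp hu
        exact hequiv.eq_one_iff_eq_one.mpr h3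
      have hs0 : algebraMap F K (s : F) ≠ 0 :=
        (map_ne_zero_iff _ (algebraMap F K).injective).mpr s.ne_zero
      refine ⟨algebraMap F K (s : F) * e, fun g hg => ?_, mul_ne_zero hs0 he0, ?_⟩
      · rw [map_mul, g.commutes]
        congr 1
        exact he g hg
      · rw [hae, ← hut, Units.val_mul, Units.val_pow_eq_pow_val, map_mul, map_mul, map_mul, hu1,
          one_mul, map_mul, map_pow, map_pow, map_pow, mul_pow]
    have hdivk : ∀ (k : ℕ) (a : K), (∀ g ∈ H, g a = a) → a ≠ 0 →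
        ∃ b : K, (∀ g ∈ H, g b = b) ∧ b ≠ 0 ∧ w a = w b ^ (2 ^ k) := by
      intro k
      induction k with
      | zero => exact fun a ha ha0 => ⟨a, ha, ha0, by rw [pow_zero, pow_one]⟩
      | succ k ih =>
        intro a ha ha0
        obtain ⟨b, hb, hb0, hab⟩ := hdiv a ha ha0
        obtain ⟨c, hc, hc0, hbc⟩ := ih b hb hb0
        exact ⟨c, hc, hc0, by rw [hab, hbc, ← pow_mul, pow_succ]⟩
    -- `w(K*) = w(E*)`
    have himm : ∀ x : K, x ≠ 0 → ∃ e : K, (∀ g ∈ H, g e = e) ∧ e ≠ 0 ∧ w x = w e := by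
      intro x hx
      obtain ⟨k, N, hN, hN0, hwN⟩ := exists_norm hP H hinv x hx
      obtain ⟨e, he, he0, hNe⟩ := hdivk k N hN hN0
      refine ⟨e, he, he0, ?_⟩
      rw [hwN] at hNe
      exact (pow_left_inj₀ zero_le zero_le (by positivity)).mp hNe
    obtain ⟨m, y, hy0, hy⟩ := exists_neg hP hσ1
    obtain ⟨e, he, he0, hye⟩ := himm y hy0
    have hwe0 : w e ≠ 0 := (w.ne_zero_iff).mpr he0
    have h3 : w (y / e) = 1 := by
      rw [map_div₀, hye, div_self hwe0]
    have h4 := inertia_pow (hle σ hσH) hin m (y / e) h3.le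
    have h5 : (σ ^ m) (y / e) - y / e = -(2 * (y / e)) := by
      rw [map_div₀, hy, he _ (H.pow_mem hσH m)]
      ring
    rw [h5, Valuation.map_neg, map_mul, hw2, h3, one_mul] at h4
    exact lt_irrefl _ h4
  · -- one-units are squares in `E`
    intro f hf
    obtain ⟨u, hu, t, ht, hut⟩ := Subgroup.mem_sup.mp hf
    obtain ⟨s, rfl⟩ := hpw t ht
    have hu1 : w (algebraMap F K (u : F) - 1) < 1 := by
      have h3 : O.valuation ((u : F) - 1) < 1 := (O.mem_principalUnitGroup_iff u).mp hu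
      have h4 : v ((u : F) - 1) < 1 := hequiv.lt_one_iff_lt_one.mpr h3
      rw [hv, Valuation.comap_apply, map_sub, map_one] at h4
      exact h4
    obtain ⟨y0, hy0⟩ := hsq (algebraMap F K (u : F))
    -- a root near one
    obtain ⟨y, hy, hy1⟩ : ∃ y : K, y ^ 2 = algebraMap F K (u : F) ∧ w (y - 1) < 1 := by
      by_contra hno
      push Not at hno
      have h5 := hno y0 hy0
      have h6 := hno (-y0) (by rw [neg_sq, hy0])
      have h7 : w (-y0 - 1) = w (y0 + 1) := by
        rw [← Valuation.map_neg]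
        congr 1
        ring
      rw [h7] at h6
      have h8 : algebraMap F K (u : F) - 1 = (y0 - 1) * (y0 + 1) := by
        rw [← hy0]; ring
      rw [h8, map_mul] at hu1
      exact absurd (one_le_mul h5 h6) (not_le.mpr hu1)
    have hyfix : ∀ g ∈ H, g y = y := by
      intro g hg
      have h5 : (g y) ^ 2 = y ^ 2 := by rw [← map_pow, hy, g.commutes]
      rcases sq_eq_sq_iff_eq_or_eq_neg.mp h5 with h | h
      · exact h
      · exfalso
        have h6 : w (g (y - 1)) < 1 := (hlt g hg _).mpr hy1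
        rw [map_sub, map_one, h] at h6
        have h7 : w (2 : K) < 1 := by
          have h8 : (2 : K) = -((-y - 1) + (y - 1)) := by ring
          rw [h8, Valuation.map_neg]
          exact lt_of_le_of_lt (w.map_add _ _) (max_lt h6 hy1)
        rw [hw2] at h7
        exact lt_irrefl _ h7
    refine ⟨y * algebraMap F K (s : F), fun g hg => ?_, ?_⟩
    · rw [AlgEquiv.smul_def, map_mul, g.commutes, hyfix g hg]
    · rw [mul_pow, hy, ← map_pow, ← map_mul, ← hut]
      push_cast
      rfl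

end Pool.Agent.V7H72.FP
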