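import Mathlib
import Pool.Agent.V7H55.FP.Defs3

set_option autoImplicit false

/-! MP_600e55_nt, free products for `p = 2`: Kummer duality. -/

namespace Pool.Agent.V7H72.FP

open Pool.Agent.V7H55.FP

section

variable {F K : Type} [Field F] [Field K] [Algebra F K]

lemma sg_zero {y : K} {σ : K ≃ₐ[F] K} (h : σ y = y) : sg y σ = 0 := by
  unfold sg
  rw [if_pos (by rw [AlgEquiv.smul_def]; exact h)]

lemma sg_one (h2 : (2 : K) ≠ 0) {y : K} (hy : y ≠ 0) {σ : K ≃ₐ[F] K} (h : σ y = -y) :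
    sg y σ = 1 := by
  unfold sg
  rw [if_neg]
  rw [AlgEquiv.smul_def, h]
  intro h3
  have : 2 * y = 0 := by linear_combination -h3
  exact (mul_ne_zero h2 hy) this

lemma fixed_of_sg {y : K} {σ : K ≃ₐ[F] K} (h : sg y σ = 0) : σ y = y := by
  unfold sg at h
  by_contra h1
  rw [if_neg (by rw [AlgEquiv.smul_def]; exact h1)] at h
  exact absurd h (by decide)

lemma pm {y : K} {a : F} (h : y ^ 2 = algebraMap F K a) (σ : K ≃ₐ[F] K) :
    σ y = y ∨ σ y = -y := by
  have h1 : (σ y) ^ 2 = y ^ 2 := by rw [← map_pow, h, σ.commutes]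
  exact sq_eq_sq_iff_eq_or_eq_neg.mp h1

lemma sg_mul (h2 : (2 : K) ≠ 0) {y z : K} (hy : y ≠ 0) (hz : z ≠ 0) {σ : K ≃ₐ[F] K}
    (h : σ y = y ∨ σ y = -y) (h' : σ z = z ∨ σ z = -z) : sg (y * z) σ = sg y σ + sg z σ := by
  have hyz := mul_ne_zero hy hz
  rcases h with h | h <;> rcases h' with h' | h'
  · rw [sg_zero h, sg_zero h', sg_zero (by rw [map_mul, h, h']), add_zero]
  · rw [sg_zero h, sg_one h2 hz h', sg_one h2 hyz (by rw [map_mul, h, h']; ring), zero_add]
  · rw [sg_zero h', sg_one h2 hy h, sg_one h2 hyz (by rw [map_mul, h, h']; ring), add_zero]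
  · rw [sg_one h2 hz h', sg_one h2 hy h, sg_zero (by rw [map_mul, h, h']; ring)]
    decide

lemma sg_neg (h2 : (2 : K) ≠ 0) {y : K} (hy : y ≠ 0) {σ : K ≃ₐ[F] K}
    (h : σ y = y ∨ σ y = -y) : sg (-y) σ = sg y σ := by
  rcases h with h | h
  · rw [sg_zero h, sg_zero (by rw [map_neg, h])]
  · rw [sg_one h2 hy h, sg_one h2 (neg_ne_zero.mpr hy) (by rw [map_neg, h])]

lemma sg_comp (h2 : (2 : K) ≠ 0) {y : K} (hy : y ≠ 0) {σ τ : K ≃ₐ[F] K}
    (h : σ y = y ∨ σ y = -y) (h' : τ y = y ∨ τ y = -y) : sg y (σ * τ) = sg y σ + sg y τ := by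
  rcases h with h | h <;> rcases h' with h' | h'
  · rw [sg_zero h, sg_zero h', sg_zero (by rw [AlgEquiv.mul_apply, h', h]), add_zero]
  · rw [sg_zero h, sg_one h2 hy h', sg_one h2 hy (by rw [AlgEquiv.mul_apply, h', map_neg, h]),
      zero_add]
  · rw [sg_zero h', sg_one h2 hy h, sg_one h2 hy (by rw [AlgEquiv.mul_apply, h', h]), add_zero]
  · rw [sg_one h2 hy h', sg_one h2 hy h,
      sg_zero (by rw [AlgEquiv.mul_apply, h', map_neg, h, neg_neg])]
    decide

end

/-- a group of linear forms of a finite `𝔽₂`-space without common zero consists of all of them -/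
lemma dual_all (V : Type) [AddCommGroup V] [Finite V] (hV : ∀ v : V, 2 • v = 0)
    (I : AddSubgroup (V →+ ZMod 2)) (hI : ∀ v, (∀ f ∈ I, f v = 0) → v = 0) (f : V →+ ZMod 2) :
    f ∈ I := by
  let _ : Module (ZMod 2) V := AddCommGroup.zmodModule hV
  have : Fact (Nat.Prime 2) := ⟨Nat.prime_two⟩
  have : Module.Finite (ZMod 2) V := Module.Finite.of_finite
  let e := AddMonoidHom.toZModLinearMapEquiv 2 (M := V) (M₁ := ZMod 2)
  let I' : AddSubgroup (Module.Dual (ZMod 2) V) := I.map e.toAddMonoidHom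
  let W : Submodule (ZMod 2) (Module.Dual (ZMod 2) V) := AddSubgroup.toZModSubmodule 2 I'
  have hW : ∀ g, g ∈ W ↔ ∃ f ∈ I, e f = g := fun g => Iff.rfl
  have hbot : W.dualCoannihilator = ⊥ := by
    rw [eq_bot_iff]
    intro v hv
    rw [Submodule.mem_dualCoannihilator] at hv
    rw [Submodule.mem_bot]
    exact hI v fun g hg => hv (e g) ⟨g, hg, rfl⟩
  have htop : W = ⊤ := by
    rw [← Subspace.dualCoannihilator_dualAnnihilator_eq (W := W), hbot]
    exact Submodule.dualAnnihilator_bot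
  obtain ⟨g, hg, hgf⟩ := (hW (e f)).mp (by rw [htop]; exact Submodule.mem_top)
  rwa [← e.injective hgf]

theorem t_KD : S_KD := by
  classical
  intro F K _ _ _ _ h2 hsq hidx χ hχ
  choose ρ hρ using hsq
  set Q : Subgroup Fˣ := (powMonoidHom 2 : Fˣ →* Fˣ).range with hQ
  -- the square root of `x`
  let r : Fˣ → K := fun x => ρ (algebraMap F K x)
  have hr : ∀ x : Fˣ, r x ^ 2 = algebraMap F K x := fun x => hρ _
  have ha0 : ∀ x : Fˣ, algebraMap F K x ≠ 0 := fun x =>
    (map_ne_zero_iff _ (algebraMap F K).injective).mpr x.ne_zero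
  have hy0 : ∀ (x : Fˣ) (y : K), y ^ 2 = algebraMap F K x → y ≠ 0 := by
    rintro x y hy rfl
    rw [zero_pow two_ne_zero] at hy
    exact ha0 x hy.symm
  have hind : ∀ (x : Fˣ) (y : K) (σ : K ≃ₐ[F] K), y ^ 2 = algebraMap F K x →
      sg y σ = sg (r x) σ := by
    intro x y σ hy
    have h1 : y ^ 2 = (r x) ^ 2 := by rw [hy, hr]
    rcases sq_eq_sq_iff_eq_or_eq_neg.mp h1 with h | h
    · rw [h]
    · rw [h, sg_neg h2 (hy0 x _ (hr x)) (pm (hr x) σ)]
  have hmulx : ∀ (σ : K ≃ₐ[F] K) (x y : Fˣ), sg (r (x * y)) σ = sg (r x) σ + sg (r y) σ := by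
    intro σ x y
    rw [← hind (x * y) (r x * r y) σ (by rw [mul_pow, hr, hr, Units.val_mul, map_mul])]
    exact sg_mul h2 (hy0 x _ (hr x)) (hy0 y _ (hr y)) (pm (hr x) σ) (pm (hr y) σ)
  -- the quotient as an additive group
  have hfi : Q.FiniteIndex := ⟨hidx⟩
  have hfin : Finite (Fˣ ⧸ Q) := inferInstance
  have hV : ∀ v : Additive (Fˣ ⧸ Q), 2 • v = 0 := by
    intro v
    obtain ⟨x, hx⟩ := QuotientGroup.mk_surjective (Additive.toMul v)
    have h1 : (Additive.toMul v) ^ 2 = 1 := by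
      rw [← hx, ← QuotientGroup.mk_pow, QuotientGroup.eq_one_iff, hQ]
      exact ⟨x, rfl⟩
    have h3 : Additive.toMul ((2 : ℕ) • v) = (Additive.toMul v) ^ 2 := toMul_nsmul 2 v
    rw [h1] at h3
    exact h3
  -- linear forms from homomorphisms
  have hform : ∀ c : Fˣ → ZMod 2, (∀ x y, c (x * y) = c x + c y) →
      ∃ f : Additive (Fˣ ⧸ Q) →+ ZMod 2, ∀ x : Fˣ, f (Additive.ofMul (x : Fˣ ⧸ Q)) = c x := by
    intro c hc
    have hc1 : c 1 = 0 := by
      have := hc 1 1
      rw [mul_one] at this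
      exact left_eq_add.mp this
    let c' : Fˣ →* Multiplicative (ZMod 2) :=
      { toFun := fun x => Multiplicative.ofAdd (c x)
        map_one' := by rw [hc1]; rfl
        map_mul' := fun x y => by rw [hc]; rfl }
    have hQc : ∀ x ∈ Q, c' x = 1 := by
      rintro x ⟨y, rfl⟩
      have : c' (y ^ 2) = (c' y) ^ 2 := map_pow _ _ _
      have h4 : (powMonoidHom 2 : Fˣ →* Fˣ) y = y ^ 2 := rfl
      rw [h4, this]
      have h5 : ∀ a : ZMod 2, a + a = 0 := by decide
      have h6 : (c' y) ^ 2 = Multiplicative.ofAdd (c y + c y) := by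
        rw [pow_two]; rfl
      rw [h6, h5]; rfl
    let L : Fˣ ⧸ Q →* Multiplicative (ZMod 2) := QuotientGroup.lift Q c' hQc
    exact ⟨{ toFun := fun v => Multiplicative.toAdd (L (Additive.toMul v))
             map_zero' := by
              have : L (Additive.toMul (0 : Additive (Fˣ ⧸ Q))) = 1 := map_one L
              rw [this]; rfl
             map_add' := fun v w => by
              have : L (Additive.toMul (v + w)) = L (Additive.toMul v) * L (Additive.toMul w) :=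
                map_mul L _ _
              rw [this]; rfl }, fun x => rfl⟩
  have hext : ∀ f g : Additive (Fˣ ⧸ Q) →+ ZMod 2,
      (∀ x : Fˣ, f (Additive.ofMul (x : Fˣ ⧸ Q)) = g (Additive.ofMul (x : Fˣ ⧸ Q))) → f = g := by
    intro f g h
    refine AddMonoidHom.ext fun v => ?_
    obtain ⟨x, hx⟩ := QuotientGroup.mk_surjective (Additive.toMul v)
    have : v = Additive.ofMul (x : Fˣ ⧸ Q) := by
      rw [hx]; rfl
    rw [this]
    exact h x
  choose fσ hfσ using fun σ : K ≃ₐ[F] K => hform (fun x => sg (r x) σ) (hmulx σ)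
  obtain ⟨fχ, hfχ⟩ := hform χ hχ
  let I : AddSubgroup (Additive (Fˣ ⧸ Q) →+ ZMod 2) :=
    { carrier := {f | ∃ σ, f = fσ σ}
      zero_mem' := by
        refine ⟨1, hext _ _ fun x => ?_⟩
        rw [hfσ, sg_zero (by rfl)]; rfl
      add_mem' := by
        rintro f g ⟨σ, rfl⟩ ⟨τ, rfl⟩
        refine ⟨σ * τ, hext _ _ fun x => ?_⟩
        rw [hfσ, AddMonoidHom.add_apply, hfσ, hfσ]
        exact (sg_comp h2 (hy0 x _ (hr x)) (pm (hr x) σ) (pm (hr x) τ)).symm
      neg_mem' := by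
        rintro f ⟨σ, rfl⟩
        refine ⟨σ, hext _ _ fun x => ?_⟩
        rw [AddMonoidHom.neg_apply]
        exact (by decide : ∀ a : ZMod 2, -a = a) _ }
  have hmem : fχ ∈ I := by
    refine dual_all (Additive (Fˣ ⧸ Q)) hV I (fun v hv => ?_) fχ
    obtain ⟨x, hx⟩ := QuotientGroup.mk_surjective (Additive.toMul v)
    have hvx : v = Additive.ofMul (x : Fˣ ⧸ Q) := by
      rw [hx]; rfl
    have h3 : ∀ σ : K ≃ₐ[F] K, σ (r x) = r x := by
      intro σ
      have := hv (fσ σ) ⟨σ, rfl⟩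
      rw [hvx, hfσ] at this
      exact fixed_of_sg this
    obtain ⟨b, hb⟩ := (InfiniteGalois.mem_range_algebraMap_iff_fixed (r x)).mpr h3
    have hb0 : b ≠ 0 := by
      rintro rfl
      rw [map_zero] at hb
      exact hy0 x _ (hr x) hb.symm
    have h4 : x ∈ Q := by
      refine ⟨Units.mk0 b hb0, ?_⟩
      apply Units.ext
      apply (algebraMap F K).injective
      have h5 : (powMonoidHom 2 : Fˣ →* Fˣ) (Units.mk0 b hb0) = (Units.mk0 b hb0) ^ 2 := rfl
      rw [h5, Units.val_pow_eq_pow_val, Units.val_mk0, map_pow, hb, hr]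
    rw [hvx, (QuotientGroup.eq_one_iff x).mpr h4]
    rfl
  obtain ⟨σ, hσ⟩ := hmem
  refine ⟨σ, fun x y hy => ?_⟩
  have h7 := hfσ σ x
  rw [hind x y σ hy, ← h7, ← hσ, hfχ]

end Pool.Agent.V7H72.FP
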